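import Pool.Agent.Helper45.SP.GoalsF
import Pool.Agent.Helper31.Lin.Lalg

/-!
# LLALG: the Lie algebra of the generators of a local group
-/

open Complex Metric Set Filter Topology
open scoped ContDiff ComplexConjugate

set_option linter.all false

namespace Pool.Agent.Helper85.SP

open Pool.Agent.Helper95.Lin Pool.Agent.Helper10.SP Pool.Agent.Helper45.SP
open Pool.Agent.Helper31.Lin

theorem LLALG (hL : S_LADD') (hF : S_LFIN) (hB : S_LBRL) : S_LLALG := by
  intro b z₀ r A h
  have hD : IsOpen (ball z₀ r) := isOpen_ball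
  let L : Submodule ℝ (Cn b → Cn b) :=
    { carrier := {V | InLL z₀ r A V}
      zero_mem' := (hL h).1
      add_mem' := fun {V W} hV hW => (hL h).2.1 V W hV hW
      smul_mem' := fun c V hV => (hL h).2.2 V hV c }
  have hf : ∀ V : L, HF (ball z₀ r) V.1 := fun V => ⟨V.2.1, V.2.2.1⟩
  letI lr : LieRing L :=
    { bracket := fun V W => ⟨brV V.1 W.1, hB h _ _ V.2 W.2⟩
      add_lie := fun V V' W => Subtype.ext (brV_add_left hD (hf V) (hf V') (hf W))
      lie_add := fun V W W' => Subtype.ext (brV_add_right hD (hf V) (hf W) (hf W'))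
      lie_self := fun V => Subtype.ext (brV_self V.1)
      leibniz_lie := fun U V W => Subtype.ext (brV_leib hD (hf U) (hf V) (hf W)) }
  letI la : LieAlgebra ℝ L :=
    { lie_smul := fun c V W => Subtype.ext (brV_smul_right hD (hf V) (hf W) c) }
  refine ⟨L, lr, la, L.subtype, hF h L fun V => Iff.rfl, Subtype.val_injective, ?_, ?_⟩
  · intro V
    constructor
    · intro hV
      exact ⟨⟨V, hV⟩, rfl⟩
    · rintro ⟨x, rfl⟩
      exact x.2
  · intro x y
    rfl

end Pool.Agent.Helper85.SP
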