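import Pool.Agent.Helper82.SP.GoalsB

/-!
# Project SP (MP_db6300_gt), packet B11d: three independent planes and a sphere
-/

set_option autoImplicit false

namespace Pool.Agent.Helper85.SP

open Matrix Real
open Pool.Agent.Helper26.LU (V M3 SO3 nrm sph proj Bm Rot crossM e)
open Pool.Agent.Helper82.SP

theorem Rot_mulVec (θ : ℝ) (x : V) :
    Rot θ *ᵥ x = ![cos θ * x 0 - sin θ * x 1, sin θ * x 0 + cos θ * x 1, x 2] := by
  ext i
  fin_cases i <;>
    simp [Rot, Matrix.mulVec, dotProduct, Fin.sum_univ_three] <;> ring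

theorem core (hc : G_B11c) (v n : Fin 4 → V) (k : Fin 4 → ℝ) (c : V) (r : ℝ)
    (i0 j p q : Fin 4) (hpq : p ≠ q) (hpj : p ≠ j) (hqj : q ≠ j) (hp : p ≠ i0) (hq : q ≠ i0)
    (hj : j ≠ i0)
    (hind : ∀ μ : Fin 4 → ℝ, μ i0 = 0 → ∑ i, μ i • n i = 0 → μ = 0)
    (hall : ∀ R ∈ SO3, ∃ t, (∀ i, i ≠ i0 → n i ⬝ᵥ (R *ᵥ v i + t) = k i) ∧
      (R *ᵥ v i0 + t - c) ⬝ᵥ (R *ᵥ v i0 + t - c) = r)
    (B : M3) (hB : B ∈ SO3) :
    ((B *ᵥ v p) 0 - (B *ᵥ v i0) 0) ^ 2 + ((B *ᵥ v p) 1 - (B *ᵥ v i0) 1) ^ 2 =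
      ((B *ᵥ v q) 0 - (B *ᵥ v i0) 0) ^ 2 + ((B *ᵥ v q) 1 - (B *ᵥ v i0) 1) ^ 2 := by
  have key : ∀ α β δ : ℝ, α • n p + β • n q + δ • n j = 0 → α = 0 ∧ β = 0 ∧ δ = 0 := by
    intro α β δ h
    have h1 := hind (fun i => (if i = p then α else 0) + (if i = q then β else 0) +
      (if i = j then δ else 0)) (by simp [hp.symm, hq.symm, hj.symm]) (by
        simp only [add_smul, ite_smul, zero_smul, Finset.sum_add_distrib, Finset.sum_ite_eq',
          Finset.mem_univ, if_true]
        exact h)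
    have hP := congrFun h1 p
    have hQ := congrFun h1 q
    have hJ := congrFun h1 j
    simp [hpq, hpj] at hP
    simp [hpq.symm, hqj] at hQ
    simp [hpj.symm, hqj.symm] at hJ
    exact ⟨hP, hQ, hJ⟩
  have hnj : n j ≠ 0 := by
    intro h
    have := (key 0 0 1 (by rw [h]; simp)).2.2
    exact one_ne_zero this
  obtain ⟨A, hA, hAe⟩ := Pool.Agent.Helper26.LU.exists_rot
    (Pool.Agent.Helper26.LU.proj_sph hnj)
  have hAA : A * Aᵀ = 1 := ((Pool.Agent.Helper26.LU.mem_SO3 A).1 hA).1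
  have hAA' : Aᵀ * A = 1 := Pool.Agent.Helper26.LU.SO3_left hA
  have hAx : ∀ x : V, A *ᵥ (Aᵀ *ᵥ x) = x := by
    intro x
    rw [Matrix.mulVec_mulVec, hAA, Matrix.one_mulVec]
  have hνpos : 0 < nrm (n j) := Pool.Agent.Helper26.LU.nrm_pos hnj
  set ν : ℝ := nrm (n j) with hν
  set m : Fin 4 → V := fun i => Aᵀ *ᵥ n i with hm
  have hmj : m j = ν • e 0 := by
    rw [hm]
    simp only
    rw [← Pool.Agent.Helper26.LU.nrm_proj (n j) hnj, ← hAe, Matrix.mulVec_smul,
      Matrix.mulVec_mulVec, hAA', Matrix.one_mulVec]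
  have hmj0 : m j 0 = 0 := by rw [hmj]; simp [Pool.Agent.Helper26.LU.e]
  have hmj1 : m j 1 = 0 := by rw [hmj]; simp [Pool.Agent.Helper26.LU.e]
  have hmj2 : m j 2 = ν := by rw [hmj]; simp [Pool.Agent.Helper26.LU.e]
  have key' : ∀ α β : ℝ, α * m p 0 + β * m q 0 = 0 → α * m p 1 + β * m q 1 = 0 →
      α = 0 ∧ β = 0 := by
    intro α β h0 h1
    have h2 : α • n p + β • n q + (-(α * m p 2 + β * m q 2) / ν) • n j = 0 := by
      have h3 : α • m p + β • m q + (-(α * m p 2 + β * m q 2) / ν) • m j = 0 := by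
        ext i
        fin_cases i
        · simp [hmj0, h0]
        · simp [hmj1, h1]
        · simp [hmj2]
          field_simp
          ring
      have h4 := congrArg (fun x => A *ᵥ x) h3
      simp only [Matrix.mulVec_add, Matrix.mulVec_smul, Matrix.mulVec_zero] at h4
      simp only [hm, hAx] at h4
      exact h4
    exact ⟨(key _ _ _ h2).1, (key _ _ _ h2).2.1⟩
  have hdet : m p 0 * m q 1 - m p 1 * m q 0 ≠ 0 := by
    intro h
    obtain ⟨a1, a2⟩ := key' (m q 0) (-m p 0) (by ring) (by linarith)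
    obtain ⟨a3, a4⟩ := key' (m q 1) (-m p 1) (by linarith) (by ring)
    have := (key' 0 1 (by rw [a1]; ring) (by rw [a3]; ring)).2
    exact one_ne_zero this
  set z : Fin 4 → V := fun i => B *ᵥ v i with hz
  set c' : V := Aᵀ *ᵥ c with hc'
  have h := hc ⟨m p 0, m p 1⟩ ⟨m q 0, m q 1⟩ ⟨z p 0 - z i0 0, z p 1 - z i0 1⟩
    ⟨z q 0 - z i0 0, z q 1 - z i0 1⟩
    (k p - m p 2 * (z p 2 + (k j / ν - z j 2)) - m p 0 * c' 0 - m p 1 * c' 1)
    (k q - m q 2 * (z q 2 + (k j / ν - z j 2)) - m q 0 * c' 0 - m q 1 * c' 1)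
    (r - (z i0 2 + (k j / ν - z j 2) - c' 2) ^ 2) (by
      intro h0
      have h1 := congrArg Complex.im h0
      simp [Complex.mul_im] at h1
      apply hdet
      linarith) (by
      intro θ
      obtain ⟨t, h1, h2⟩ := hall (A * Rot θ * B) (Pool.Agent.Helper26.LU.SO3_mul
        (Pool.Agent.Helper26.LU.SO3_mul hA (Pool.Agent.Helper26.LU.Rot_SO3 θ)) hB)
      set t' : V := Aᵀ *ᵥ t with ht'
      have e1 : ∀ i, (A * Rot θ * B) *ᵥ v i + t = A *ᵥ (Rot θ *ᵥ z i + t') := by
        intro i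
        rw [Matrix.mulVec_add, ht', hAx, ← Matrix.mulVec_mulVec, ← Matrix.mulVec_mulVec]
      have h1' : ∀ i, i ≠ i0 → m i ⬝ᵥ (Rot θ *ᵥ z i + t') = k i := by
        intro i hi
        rw [← h1 i hi, e1 i, ← Pool.Agent.Helper26.LU.dot_mulVec hA, hm]
        simp only
        rw [hAx]
      have h2' : (Rot θ *ᵥ z i0 + t' - c') ⬝ᵥ (Rot θ *ᵥ z i0 + t' - c') = r := by
        rw [← h2, e1 i0, ← Pool.Agent.Helper26.LU.dot_mulVec hA, Matrix.mulVec_sub, hc', hAx]
      have hJ := h1' j hj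
      have hP := h1' p hp
      have hQ := h1' q hq
      simp only [Rot_mulVec, dotProduct, Fin.sum_univ_three, Pi.add_apply, Pi.sub_apply,
        Matrix.cons_val_zero, Matrix.cons_val_one, Matrix.cons_val] at hJ hP hQ h2'
      rw [hmj0, hmj1, hmj2] at hJ
      have ht2 : t' 2 = k j / ν - z j 2 := by
        field_simp
        linarith
      rw [ht2] at hP hQ h2'
      refine ⟨⟨cos θ * z i0 0 - sin θ * z i0 1 + t' 0 - c' 0,
        sin θ * z i0 0 + cos θ * z i0 1 + t' 1 - c' 1⟩, ?_, ?_, ?_⟩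
      · simp only [Complex.mul_re, Complex.add_re, Complex.add_im, Complex.mul_im,
          Complex.conj_re, Complex.conj_im, mul_comm Complex.I (θ : ℂ),
          Complex.exp_ofReal_mul_I_re, Complex.exp_ofReal_mul_I_im]
        linear_combination hP
      · simp only [Complex.mul_re, Complex.add_re, Complex.add_im, Complex.mul_im,
          Complex.conj_re, Complex.conj_im, mul_comm Complex.I (θ : ℂ),
          Complex.exp_ofReal_mul_I_re, Complex.exp_ofReal_mul_I_im]
        linear_combination hQ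
      · rw [← Complex.normSq_eq_norm_sq, Complex.normSq_mk]
        linear_combination h2')
  have h3 := congrArg (fun x : ℝ => x ^ 2) h
  simp only [← Complex.normSq_eq_norm_sq, Complex.normSq_mk] at h3
  linear_combination h3

/-- **B11d**. -/
theorem goalB11d (hNF : G_NF) (hB : G_B11b) (hC : G_B11c) : G_B11d := by
  intro v a n k c r i0 U hT hU hne hind hyp
  have hall := hB v n k c r i0 U hU hne hind hyp
  obtain ⟨z, O, l, hO, hl, -, hv⟩ := hNF v a hT
  have hOO : Oᵀ * O = 1 := Pool.Agent.Helper26.LU.SO3_left hO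
  have hB' : ∀ i, Oᵀ *ᵥ v i = Oᵀ *ᵥ z + l • tt i := by
    intro i
    rw [hv i, Matrix.mulVec_add, Matrix.mulVec_smul, Matrix.mulVec_mulVec, hOO,
      Matrix.one_mulVec]
  have hcore := fun j p q h1 h2 h3 h4 h5 h6 =>
    core hC v n k c r i0 j p q h1 h2 h3 h4 h5 h6 hind hall Oᵀ
      (Pool.Agent.Helper26.LU.SO3_transpose hO)
  have hl2 : 0 < l ^ 2 := by positivity
  fin_cases i0
  · have h := hcore 2 3 1 (by decide) (by decide) (by decide) (by decide) (by decide) (by decide)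
    simp only [hB'] at h
    simp [tt] at h
    nlinarith
  · have h := hcore 3 2 0 (by decide) (by decide) (by decide) (by decide) (by decide) (by decide)
    simp only [hB'] at h
    simp [tt] at h
    nlinarith
  · have h := hcore 3 1 0 (by decide) (by decide) (by decide) (by decide) (by decide) (by decide)
    simp only [hB'] at h
    simp [tt] at h
    nlinarith
  · have h := hcore 2 0 1 (by decide) (by decide) (by decide) (by decide) (by decide) (by decide)
    simp only [hB'] at h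
    simp [tt] at h
    nlinarith

end Pool.Agent.Helper85.SP
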